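import Mathlib
import Pool.Agent.Y210.EF.Vec
import Pool.Agent.H200M.Near

set_option autoImplicit false

/-!
# All classes except those critical outside three points, on ONE explicit surface for each `n`

A class `(d; w)` is CRITICAL OUTSIDE THREE POINTS (`Pool.Agent.H200M.Tight3 c`, for a function `c` with
positive values) if for every `ε > 0` and all three points `p` with arbitrary multiplicities
`w (p 2) ≤ w (p 1) ≤ w (p 0)`, `w (p 0) + w (p 1) + w (p 2) ≤ d`, such that `w i ≤ c(ε) (d - w (p 0))` for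
all other points `i`, the volume `X = (d + 1) (d + 2) - ∑_j w (p j) (w (p j) + 1)` left by the three points is
filled by the large ones of the other multiplicities up to the part `ε` (`Pool.Agent.H200M.Tight`): all other
multiplicities together have `|X - ∑ w i (w i + 1)| < ε X`; and
for every `μ` such that all nonzero values `≤ μ` at the other points are taken at least `2 ^ 29` times
there, or the number `k` of the values `≤ μ` satisfies `(k + 1) μ ^ 2 ≤ c(ε) X`, the other
multiplicities `> c(ε) μ` have `∑ w i ^ 2 > (1 - ε) X` and those `≤ c(ε) μ` have `∑ w i ^ 2 < ε X`.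
(`μ = a X ^ (1 / 3)` with a small constant `a` is always such a number, `Pool.Agent.H200M.few_cube`.)

There is a function `c` with positive values such that the following holds. Let `X` be the blow-up of
the real (or complex) projective plane at the `n` points with the affine coordinates
`exp (2 ^ (k / 2 n))`, `k < 2 n`. Every class `(d; w)` which is not critical outside three points, or
(`n ≥ 4`) which is carried by finitely many reflections to such a standard class, has
`dim = max (vdim, -1)` on `X`.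

Moreover for every such class there is a polynomial `Φ ≠ 0` with INTEGRAL coefficients in the `2 n`
coordinates of `n` points, of degree at most `B = ρ d` and height at most `H = ρ! 2 ^ (ρ d)`,
`ρ = min ((d + 2).choose 2) (∑ (w i + 1).choose 2)`, such that `dim = max (vdim, -1)` at all `n` points
`Y` over ANY field with `Φ(Y) ≠ 0`; `Φ ≠ 0` over every field of characteristic zero or `p > H`, with
counts of the exceptional configurations and explicit points with integral coordinates (`Controls`).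
-/

namespace Pool.Agent.Results.MP_6e81d8_ag.ThreeArbitraryExplicit

open MvPolynomial Pool.Agent.H200M

section defs
variable {L : Type} [Field L]

/-- `H⁰(D)` for `D = d H - ∑ w i E i`: the forms of degree `d` which vanish to order at least `w i` at
the points `(Y i 0 : Y i 1 : 1)`. -/
noncomputable def sections {n : ℕ} (Y : Fin n → Fin 2 → L) (d : ℕ) (w : Fin n → ℕ) :
    Submodule L (MvPolynomial (Fin 3) L) :=
  homogeneousSubmodule (Fin 3) L d ⊓ Submodule.restrictScalars L
    (⨅ i : Fin n, Ideal.span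
      ({X 0 - C (Y i 0) * X 2, X 1 - C (Y i 1) * X 2} : Set (MvPolynomial (Fin 3) L)) ^ (w i))

/-- The projective dimension of the linear system `|D|`. -/
noncomputable def dimension {n : ℕ} (Y : Fin n → Fin 2 → L) (d : ℕ) (w : Fin n → ℕ) : ℤ :=
  (Module.finrank L ↥(sections Y d w) : ℤ) - 1

/-- The value at `Y` of a polynomial with integral coefficients in the coordinates of `n` points. -/
noncomputable def value {n : ℕ} (Φ : MvPolynomial (Fin n × Fin 2) ℤ) (Y : Fin n → Fin 2 → L) : L :=
  eval (fun ij : Fin n × Fin 2 => Y ij.1 ij.2) (Φ.map (Int.castRingHom L))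

end defs

/-- The virtual dimension. -/
def vdim {n : ℕ} (d : ℕ) (w : Fin n → ℕ) : ℤ :=
  ((d + 2).choose 2 : ℤ) - 1 - ∑ i, ((w i + 1).choose 2 : ℤ)

/-- The sum of the absolute values of the coefficients. -/
noncomputable def height {n : ℕ} (Φ : MvPolynomial (Fin n × Fin 2) ℤ) : ℕ :=
  ∑ s ∈ Φ.support, (Φ.coeff s).natAbs

/-- The number `c = ∑ w i (w i + 1) / 2` of the conditions. -/
def conds {n : ℕ} (w : Fin n → ℕ) : ℕ := ∑ i, (w i + 1).choose 2

/-- `Φ ≠ 0` has degree at most `B` and height at most `H`. Over every field of characteristic zero or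
larger than `H` it is not zero, at most `B |S| ^ (2 n - 1)` of the configurations with coordinates in a
finite set `S` are zeros of `Φ`, and in characteristic zero the points
`(T ^ E ^ (2 i) : T ^ E ^ (2 i + 1) : 1)`, `E > B`, `T > H`, are not. -/
def Controls {n : ℕ} (Φ : MvPolynomial (Fin n × Fin 2) ℤ) (B H : ℕ) : Prop :=
  Φ ≠ 0 ∧ Φ.totalDegree ≤ B ∧ height Φ ≤ H ∧
    (∀ (L : Type) [Field L], (CharZero L ∨ ∃ p : ℕ, CharP L p ∧ H < p) →
      Φ.map (Int.castRingHom L) ≠ 0 ∧
      ∀ S : Finset L, Set.ncard {Y : Fin n × Fin 2 → L | (∀ ij, Y ij ∈ S) ∧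
        value Φ (fun i j => Y (i, j)) = 0} * S.card ≤ B * S.card ^ (2 * n)) ∧
    ∀ E T : ℕ, B < E → H < T → ∀ (L : Type) [Field L] [CharZero L],
      value Φ (fun (i : Fin n) (j : Fin 2) => (T : L) ^ E ^ (2 * (i : ℕ) + (j : ℕ))) ≠ 0

/-- The `n` points with the affine coordinates `exp (2 ^ (k / (2 n)))`, `k = 0, 1, …, 2 n - 1`. -/
noncomputable def realPoints (n : ℕ) : Fin n → Fin 2 → ℝ := fun i j =>
  Real.exp ((2 : ℝ) ^ (((2 * (i : ℕ) + (j : ℕ) : ℕ) : ℝ) / (2 * n)))

/-- The class `(d; w)` is standard: `d ≥ w i + w j + w k`. -/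
def Standard {n : ℕ} (d : ℕ) (w : Fin n → ℕ) : Prop :=
  ∀ i j k : Fin n, i ≠ j → i ≠ k → j ≠ k → w i + w j + w k ≤ d

/-- The reflection of the class `a = (d; w)`, `d H - ∑ w l E l`, in the class
`H - E (i 0) - E (i 1) - E (i 2)`: with `δ = d - w (i 0) - w (i 1) - w (i 2)`, the numbers
`d`, `w (i 0)`, `w (i 1)`, `w (i 2)` are increased by `δ`. -/
def reflect {n : ℕ} (i : Fin 3 → Fin n) (a : ℤ × (Fin n → ℤ)) : ℤ × (Fin n → ℤ) :=
  (a.1 + (a.1 - a.2 (i 0) - a.2 (i 1) - a.2 (i 2)),
    fun l => a.2 l + if l = i 0 ∨ l = i 1 ∨ l = i 2 then a.1 - a.2 (i 0) - a.2 (i 1) - a.2 (i 2)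
      else 0)

/-- Finitely many reflections carry `(d; w)` to `(d'; w')`. -/
def Carries {n : ℕ} (d : ℕ) (w : Fin n → ℕ) (d' : ℕ) (w' : Fin n → ℕ) : Prop :=
  Relation.ReflTransGen
    (fun a b : ℤ × (Fin n → ℤ) => ∃ i : Fin 3 → Fin n, Function.Injective i ∧ b = reflect i a)
    ((d : ℤ), fun l => (w l : ℤ)) ((d' : ℤ), fun l => (w' l : ℤ))

/-- Classes which are not critical outside three points, or carried by finitely many reflections to such a
standard class. -/
def Tame (c : ℝ → ℝ) {n : ℕ} (d : ℕ) (w : Fin n → ℕ) : Prop :=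
  ¬ Tight3 c d w ∨
    (4 ≤ n ∧ ∃ (d' : ℕ) (w' : Fin n → ℕ), Carries d w d' w' ∧ Standard d' w' ∧ ¬ Tight3 c d' w')

theorem dim_of {L : Type} [Field L] {n : ℕ} {Y : Fin n → Fin 2 → L} {d : ℕ} {w : Fin n → ℕ}
    (h : Pool.Agent.Y210.EF.ED L w Y d) : dimension Y d w = max (vdim d w) (-1) := by
  have h1 : Module.finrank L ↥(sections Y d w) =
      Nat.choose (d + 2) 2 - ∑ i, Nat.choose (w i + 1) 2 := h
  have h2 : ∑ i, ((w i + 1).choose 2 : ℤ) = ((∑ i, Nat.choose (w i + 1) 2 : ℕ) : ℤ) := by
    push_cast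
    rfl
  unfold dimension vdim
  rw [h1, h2]
  omega

theorem controls_of {n : ℕ} {Φ : MvPolynomial (Fin n × Fin 2) ℤ} {B H : ℕ} (h1 : Φ ≠ 0)
    (h2 : Φ.totalDegree ≤ B) (h3 : Pool.Agent.Y210.EF.l1 Φ ≤ H) : Controls Φ B H :=
  ⟨h1, h2, h3, fun L _ hL => Pool.Agent.Y210.EF.val_count h1 h2 h3 L hL,
    fun E T hE hT L _ _ => Pool.Agent.Y210.EF.val_kron h1 h2 h3 hE hT L⟩

/-- **Main result.** -/
theorem result : ∃ c : ℝ → ℝ, (∀ ε, 0 < ε → 0 < c ε) ∧
    ∀ (n : ℕ), 1 ≤ n → ∀ (d : ℕ) (w : Fin n → ℕ), Tame c d w →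
    -- the explicit points
    dimension (realPoints n) d w = max (vdim d w) (-1) ∧
    -- explicit open sets over all fields
    ∃ Φ : MvPolynomial (Fin n × Fin 2) ℤ,
      Controls Φ (min ((d + 2).choose 2) (conds w) * d)
        ((min ((d + 2).choose 2) (conds w)).factorial *
          2 ^ (min ((d + 2).choose 2) (conds w) * d)) ∧
      ∀ (L : Type) [Field L] (Y : Fin n → Fin 2 → L), value Φ Y ≠ 0 →
        dimension Y d w = max (vdim d w) (-1) := by
  obtain ⟨c, hc, H⟩ := tight3_all
  refine ⟨c, hc, fun n hn d w hw => ?_⟩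
  obtain ⟨K, _, _, P, hP⟩ := Pool.Agent.TH442.NF.exists_generic n
  have hED : Pool.Agent.Y210.EF.ED K w P d := by
    rcases hw with h | ⟨hn4, d', w', hcar, hs, hG⟩
    · exact H w h hP
    · exact Pool.Agent.TH442.NF.up_enef hP hcar (Pool.Agent.TH442.NF.enef_of_std hn4 P hs)
        (H w' hG hP)
  obtain ⟨Φ, h1, h2, h3, h4⟩ := Pool.Agent.Y210.EF.one_ed hED
  rw [← pow_mul, mul_comm d] at h3
  have key : ∀ (L : Type) [Field L] (Y : Fin n → Fin 2 → L), value Φ Y ≠ 0 →
      dimension Y d w = max (vdim d w) (-1) := fun L _ Y hY =>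
    dim_of (h4 L Y (by rw [← Pool.Agent.Y210.EF.val_eq]; exact hY))
  exact ⟨key ℝ (realPoints n) (Pool.Agent.Y210.EF.val_real hn h1),
    ⟨Φ, controls_of h1 h2 h3, key⟩⟩

end Pool.Agent.Results.MP_6e81d8_ag.ThreeArbitraryExplicit
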